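import Mathlib

/-!
Doubly transitive groups of semi-affine permutations `x ↦ a σ(x) + b` of a finite field that
preserve a code.
-/

namespace P61e83e

section inv

variable {F K : Type*} [Field F] [Finite K]

/-- the permutation `g` preserves the code `C` -/
def Pres (C : Submodule F (K → F)) (g : Equiv.Perm K) : Prop :=
  ∀ f ∈ C, (fun z => f (g z)) ∈ C

omit [Finite K] in
lemma Pres.mul {C : Submodule F (K → F)} {g h : Equiv.Perm K} (hg : Pres C g) (hh : Pres C h) :
    Pres C (g * h) := fun f hf => hh _ (hg f hf)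

lemma Pres.symm {C : Submodule F (K → F)} {g : Equiv.Perm K} (hg : Pres C g) :
    Pres C g.symm := by
  intro f hf
  let T : C →ₗ[F] C :=
    { toFun := fun f => ⟨fun z => (f : K → F) (g z), hg f f.2⟩
      map_add' := fun _ _ => rfl
      map_smul' := fun _ _ => rfl }
  have hinj : Function.Injective T := by
    intro a b hab
    ext z
    have := congrFun (congrArg Subtype.val hab) (g.symm z)
    simpa [T] using this
  obtain ⟨f', hf'⟩ := (LinearMap.injective_iff_surjective.mp hinj) ⟨f, hf⟩
  have : (fun z => f (g.symm z)) = (f' : K → F) := by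
    funext z
    have := congrFun (congrArg Subtype.val hf') (g.symm z)
    simpa [T] using this.symm
  rw [this]
  exact f'.2

end inv

section group

variable {F K : Type*} [Field F] [Field K] [Fintype K]

/-- `g` is a semi-affine permutation of `K` -/
def SemiAff (g : Equiv.Perm K) : Prop := ∃ (σ : K ≃+* K) (a b : K), ∀ z, g z = a * σ z + b

/-- the semi-affine permutations preserving `C` form a doubly transitive set -/
def TwoTrans (C : Submodule F (K → F)) : Prop :=
  ∀ x y x' y' : K, x ≠ y → x' ≠ y' → ∃ g : Equiv.Perm K, SemiAff g ∧ Pres C g ∧ g x = x' ∧ g y = y'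

/-- translation as a permutation -/
def trans (b : K) : Equiv.Perm K := Equiv.addRight b

omit [Fintype K] in
lemma trans_apply (b z : K) : trans b z = z + b := rfl

instance : Finite (K ≃+* K) :=
  Finite.of_injective (fun f : K ≃+* K => (f : K → K)) DFunLike.coe_injective

variable (p : ℕ) [hp : Fact p.Prime] [CharP K p]

include hp in
/-- a finite field with `p ^ m` elements has at most `m` automorphisms -/
lemma card_aut_le (m : ℕ) (hm : Fintype.card K = p ^ m) : Nat.card (K ≃+* K) ≤ m := by
  classical
  let _ := ZMod.algebra K p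
  have : Module.Finite (ZMod p) K := Module.Finite.of_finite
  have h1 : Module.finrank (ZMod p) K = m := by
    have h2 := Module.card_eq_pow_finrank (K := ZMod p) (V := K)
    rw [hm, ZMod.card] at h2
    exact (Nat.pow_right_injective hp.out.two_le h2).symm
  let φ : (K ≃+* K) → (K ≃ₐ[ZMod p] K) := fun f => AlgEquiv.ofRingEquiv (f := f) (fun x => by
    have : (f : K →+* K).comp (algebraMap (ZMod p) K) = algebraMap (ZMod p) K :=
      Subsingleton.elim _ _
    exact RingHom.congr_fun this x)
  have hφ : Function.Injective φ := by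
    intro f g hfg
    ext x
    exact congrArg (fun h : K ≃ₐ[ZMod p] K => h x) hfg
  calc Nat.card (K ≃+* K) ≤ Nat.card (K ≃ₐ[ZMod p] K) := Nat.card_le_card_of_injective φ hφ
    _ = Fintype.card (K ≃ₐ[ZMod p] K) := Nat.card_eq_fintype_card
    _ ≤ Module.finrank (ZMod p) K := AlgEquiv.card_le
    _ = m := h1

variable {p}

omit hp [CharP K p] in
/-- for distinct points `0, 1 ↦ b, b + c` -/
lemma TwoTrans.exists_semi {C : Submodule F (K → F)} (h : TwoTrans C) (b c : K) (hc : c ≠ 0) :
    ∃ (g : Equiv.Perm K) (σ : K ≃+* K), (∀ z, g z = c * σ z + b) ∧ Pres C g := by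
  obtain ⟨g, ⟨σ, a, b', hg⟩, hC, h0, h1⟩ := h 0 1 b (c + b) zero_ne_one
    (by intro h; exact hc (by simpa using h.symm))
  have hb : b' = b := by
    have := hg 0
    rw [map_zero σ, mul_zero, zero_add] at this
    rw [← this, h0]
  subst hb
  have ha : a = c := by
    have := hg 1
    rw [map_one σ, mul_one, h1] at this
    exact (add_right_cancel this).symm
  subst ha
  exact ⟨g, σ, hg, hC⟩

variable (p)

include hp in
/-- A doubly transitive set of semi-affine symmetries contains all translations. -/
lemma TwoTrans.trans_mem (m : ℕ) (hm : Fintype.card K = p ^ m) {C : Submodule F (K → F)}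
    (h : TwoTrans C) (b : K) : Pres C (trans b) := by
  classical
  -- a nontrivial translation
  have h1 : ∀ b : K, ∃ (g : Equiv.Perm K) (σ : K ≃+* K), (∀ z, g z = σ z + b) ∧ Pres C g := by
    intro b
    obtain ⟨g, σ, hg, hC⟩ := h.exists_semi b 1 one_ne_zero
    exact ⟨g, σ, fun z => by rw [hg, one_mul], hC⟩
  choose g σ hg hC using h1
  have hcard : Nat.card (K ≃+* K) < Nat.card K := by
    refine (card_aut_le p m hm).trans_lt ?_
    rw [Nat.card_eq_fintype_card, hm]
    exact Nat.lt_pow_self hp.out.one_lt
  have hninj : ¬ Function.Injective σ := by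
    intro hinj
    have := Nat.card_le_card_of_injective σ hinj
    omega
  obtain ⟨b₁, b₂, hσ, hne⟩ : ∃ b₁ b₂, σ b₁ = σ b₂ ∧ b₁ ≠ b₂ := by
    simpa [Function.Injective] using hninj
  set d := b₁ - b₂ with hd
  have hd0 : d ≠ 0 := sub_ne_zero.mpr hne
  have hdC : Pres C (trans d) := by
    have h2 := (hC b₁).mul (hC b₂).symm
    have h3 : g b₁ * (g b₂).symm = trans d := by
      ext z
      rw [Equiv.Perm.mul_apply, trans_apply, hg b₁]
      have h4 := hg b₂ ((g b₂).symm z)
      rw [Equiv.apply_symm_apply] at h4
      rw [hσ, hd]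
      conv_rhs => rw [h4]
      ring
    rwa [h3] at h2
  by_cases hb : b = 0
  · intro f hf
    simpa [hb, trans_apply] using hf
  obtain ⟨k, ⟨τ, a, c, hk⟩, hkC, hk0, hk1⟩ := h 0 d 0 b hd0.symm (Ne.symm hb)
  have hc : c = 0 := by
    have := hk 0
    rw [map_zero τ, mul_zero, zero_add, hk0] at this
    exact this.symm
  subst hc
  have h5 := (hkC.mul hdC).mul hkC.symm
  have h6 : k * trans d * k.symm = trans b := by
    ext z
    rw [Equiv.Perm.mul_apply, Equiv.Perm.mul_apply, trans_apply, trans_apply, hk, map_add, mul_add,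
      add_zero]
    have h7 := hk (k.symm z)
    rw [Equiv.apply_symm_apply, add_zero] at h7
    have h8 := hk d
    rw [hk1, add_zero] at h8
    rw [← h7, ← h8]
  rwa [h6] at h5

/-- dilation as a permutation -/
def dil (a : Kˣ) : Equiv.Perm K := Units.mulLeft a

omit [Fintype K] in
lemma dil_apply (a : Kˣ) (z : K) : dil a z = a * z := rfl

/-- the group of dilations preserving `C` -/
def dilGroup (C : Submodule F (K → F)) : Subgroup Kˣ where
  carrier := {a | Pres C (dil a)}
  one_mem' := by
    intro f hf
    simpa [dil_apply] using hf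
  mul_mem' := by
    intro a b ha hb
    have h1 : Pres C (dil a * dil b) := Pres.mul ha hb
    have h2 : dil a * dil b = dil (a * b) := by
      ext z
      simp [dil_apply, mul_assoc]
    rw [h2] at h1
    exact h1
  inv_mem' := by
    intro a ha
    have h1 : Pres C (dil a).symm := Pres.symm ha
    have h2 : (dil a).symm = dil a⁻¹ := by
      ext z
      rfl
    rw [h2] at h1
    exact h1

include hp in
lemma TwoTrans.index_le (m : ℕ) (hm : Fintype.card K = p ^ m) {C : Submodule F (K → F)}
    (h : TwoTrans C) : (dilGroup C).index ≤ m := by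
  classical
  have h1 : ∀ c : Kˣ, ∃ (g : Equiv.Perm K) (σ : K ≃+* K), (∀ z, g z = c * σ z) ∧ Pres C g := by
    intro c
    obtain ⟨g, σ, hg, hC⟩ := h.exists_semi 0 (c : K) c.ne_zero
    exact ⟨g, σ, fun z => by rw [hg, add_zero], hC⟩
  choose g σ hg hC using h1
  have h2 : ∀ c c' : Kˣ, σ c = σ c' → c'⁻¹ * c ∈ dilGroup C := by
    intro c c' hcc
    have h3 := (hC c).mul (hC c').symm
    have h4 : g c * (g c').symm = dil (c'⁻¹ * c) := by
      ext z
      rw [Equiv.Perm.mul_apply, hg c, dil_apply]
      have h5 := hg c' ((g c').symm z)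
      rw [Equiv.apply_symm_apply] at h5
      rw [hcc]
      conv_rhs => rw [h5]
      push_cast
      field_simp
    rwa [h4] at h3
  have h3 : Nat.card (Kˣ ⧸ dilGroup C) ≤ Nat.card (K ≃+* K) := by
    refine Nat.card_le_card_of_injective (fun x => σ x.out) ?_
    intro x y hxy
    have h4 := h2 _ _ hxy
    have h5 : (QuotientGroup.mk y.out : Kˣ ⧸ dilGroup C) = QuotientGroup.mk x.out :=
      QuotientGroup.eq.mpr h4
    simpa using h5.symm
  exact h3.trans (card_aut_le p m hm)

end group

end P61e83e
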