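import Mathlib
import Pool.Agent.Lib.P61e83e.Group

/-!
Codes with a doubly transitive semi-affine group in cross characteristic: such a code consists of
constants or contains a word of weight two.
-/

namespace P61e83e

variable {F K : Type*} [Field F] [Field K] [Fintype K]

/-- A translation invariant code of length prime to the characteristic has a kernel `e`, unique in
the code, reproducing all its words by convolution. -/
lemma exists_kernel (hcard : ((Fintype.card K : ℕ) : F) ≠ 0) (C : Submodule F (K → F))
    (htr : ∀ b, Pres C (trans b)) :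
    ∃ e ∈ C, ∀ f ∈ C, ∀ x, f x = ∑ y, f y * e (x - y) := by
  classical
  obtain ⟨π0, hπ0⟩ := LinearMap.exists_leftInverse_of_injective C.subtype
    (LinearMap.ker_eq_bot.mpr C.injective_subtype)
  have hπ1 : ∀ f (hf : f ∈ C), ((π0 f : C) : K → F) = f := by
    intro f hf
    have := LinearMap.congr_fun hπ0 ⟨f, hf⟩
    simpa using congrArg Subtype.val this
  -- the averaged projection
  let π : (K → F) → K → F := fun f x =>
    ((Fintype.card K : ℕ) : F)⁻¹ * ∑ b, ((π0 (fun z => f (z + b)) : C) : K → F) (x - b)
  have hπmem : ∀ f, π f ∈ C := by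
    intro f
    have h1 : π f = ((Fintype.card K : ℕ) : F)⁻¹ •
        ∑ b, (fun x => ((π0 (fun z => f (z + b)) : C) : K → F) (x - b)) := by
      ext x
      simp [π, Finset.sum_apply]
    rw [h1]
    refine C.smul_mem _ (C.sum_mem fun b _ => ?_)
    have := htr (-b) _ (π0 (fun z => f (z + b))).2
    simpa [trans_apply, sub_eq_add_neg] using this
  have hπC : ∀ f ∈ C, π f = f := by
    intro f hf
    ext x
    have h1 : ∀ b, ((π0 (fun z => f (z + b)) : C) : K → F) (x - b) = f x := by
      intro b
      have h0 := hπ1 (fun z => f (z + b)) (htr b f hf)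
      rw [h0]
      simp
    simp only [π, h1]
    rw [Finset.sum_const, Finset.card_univ, nsmul_eq_mul]
    field_simp
  refine ⟨π (Pi.single 0 1), hπmem _, fun f hf x => ?_⟩
  conv_lhs => rw [← hπC f hf]
  -- expand `f` in the point masses
  have h2 : ∀ b, π0 (fun z => f (z + b)) = ∑ y, f y • π0 (fun z => (Pi.single y 1 : K → F) (z + b))
      := by
    intro b
    have e0 : (fun z => f (z + b)) = ∑ y, f y • (fun z => (Pi.single y 1 : K → F) (z + b)) := by
      funext z
      simp [Finset.sum_apply, Pi.single_apply]
    rw [e0, map_sum]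
    simp_rw [map_smul]
  simp only [π, h2]
  simp only [Submodule.coe_sum, Submodule.coe_smul, Finset.sum_apply, Pi.smul_apply, smul_eq_mul]
  rw [Finset.sum_comm]
  rw [Finset.mul_sum]
  refine Finset.sum_congr rfl fun y _ => ?_
  rw [← Finset.mul_sum]
  have h3 : ∑ b, ((π0 (fun z => (Pi.single y 1 : K → F) (z + b)) : C) : K → F) (x - b) =
      ∑ b, ((π0 (fun z => (Pi.single 0 1 : K → F) (z + b)) : C) : K → F) (x - y - b) := by
    rw [← Equiv.sum_comp (Equiv.addRight y)]
    refine Finset.sum_congr rfl fun b _ => ?_
    have e1 : (fun z => (Pi.single y 1 : K → F) (z + (Equiv.addRight y) b)) =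
        fun z => (Pi.single 0 1 : K → F) (z + b) := by
      funext z
      simp only [Equiv.coe_addRight, Pi.single_apply]
      congr 1
      rw [← add_assoc]
      simp
    rw [e1]
    simp only [Equiv.coe_addRight]
    have e2 : x - (b + y) = x - y - b := by ring
    rw [e2]
  rw [h3]
  ring

/-- **Cross characteristic.** -/
lemma cross_dichotomy [DecidableEq F] (hcard : ((Fintype.card K : ℕ) : F) ≠ 0)
    (C : Submodule F (K → F)) (h : TwoTrans C) (htr : ∀ b, Pres C (trans b)) :
    (∃ w ∈ C, w ≠ 0 ∧ (Finset.univ.filter fun x => w x ≠ 0).card ≤ 2) ∨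
      Module.finrank F C ≤ 1 := by
  classical
  obtain ⟨e, heC, he⟩ := exists_kernel hcard C htr
  -- uniqueness
  have huniq : ∀ e' ∈ C, (∀ f ∈ C, ∀ x, f x = ∑ y, f y * e' (x - y)) → e' = e := by
    intro e' he'C he'
    funext x
    rw [he e' he'C x, he' e heC x, ← Equiv.sum_comp (Equiv.subLeft x)]
    refine Finset.sum_congr rfl fun y _ => ?_
    simp only [Equiv.subLeft_apply, sub_sub_cancel]
    ring
  -- invariance under the point stabiliser
  have hinv : ∀ (g : Equiv.Perm K) (σ : K ≃+* K) (a : K), (∀ z, g z = a * σ z) → Pres C g →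
      ∀ x, e (g x) = e x := by
    intro g σ a hg hgC x
    have h1 : (fun z => e (g z)) = e := by
      refine huniq _ (hgC e heC) fun f hf x => ?_
      have h2 := he _ (hgC.symm f hf) (g x)
      simp only [Equiv.symm_apply_apply] at h2
      rw [h2, ← Equiv.sum_comp g]
      refine Finset.sum_congr rfl fun y _ => ?_
      rw [Equiv.symm_apply_apply]
      have h3 : g x - g y = g (x - y) := by
        rw [hg, hg, hg, map_sub, mul_sub]
      rw [h3]
    exact congrFun h1 x
  have hconst : ∀ x, x ≠ 0 → e x = e 1 := by
    intro x hx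
    obtain ⟨g, σ, hg, hgC⟩ := h.exists_semi 0 x hx
    have h1 := hinv g σ x (fun z => by rw [hg, add_zero]) hgC 1
    have h2 : g 1 = x := by rw [hg, map_one σ, mul_one, add_zero]
    rw [h2] at h1
    exact h1
  by_cases hα : e 0 = e 1
  · right
    have hall : ∀ x, e x = e 1 := by
      intro x
      by_cases hx : x = 0
      · rw [hx, hα]
      · exact hconst x hx
    have hsub : C ≤ Submodule.span F {fun _ => (1 : F)} := by
      intro f hf
      rw [Submodule.mem_span_singleton]
      refine ⟨(∑ y, f y) * e 1, ?_⟩
      funext x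
      rw [he f hf x]
      simp only [hall, Pi.smul_apply, smul_eq_mul, mul_one]
      rw [Finset.sum_mul]
    calc Module.finrank F C ≤ Module.finrank F (Submodule.span F {fun _ : K => (1 : F)}) :=
          Submodule.finrank_mono hsub
      _ ≤ 1 := by
        have := finrank_span_le_card (R := F) ({fun _ : K => (1 : F)} : Set (K → F))
        simpa using this
  · left
    refine ⟨fun x => e x - e (x + 1), ?_, ?_, ?_⟩
    · have h1 := htr 1 e heC
      have h2 := C.sub_mem heC h1
      exact h2
    · intro h0
      have h1 := congrFun h0 0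
      simp only [zero_add, Pi.zero_apply] at h1
      exact hα (sub_eq_zero.mp h1)
    · refine (Finset.card_le_card (t := {0, -1}) ?_).trans Finset.card_le_two
      intro x hx
      rw [Finset.mem_filter] at hx
      rw [Finset.mem_insert, Finset.mem_singleton]
      by_contra hcon
      push Not at hcon
      apply hx.2
      have h1 : x + 1 ≠ 0 := fun h => hcon.2 (eq_neg_of_add_eq_zero_left h)
      show e x - e (x + 1) = 0
      rw [hconst x hcon.1, hconst _ h1, sub_self]

end P61e83e
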