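import Mathlib

/-!
Base `p` digits and the sets of exponents closed under lowering a nonzero digit.
-/

namespace P61e83e

/-- the `i`-th digit of `l` in base `p` -/
def dg (p l i : ℕ) : ℕ := l / p ^ i % p

lemma dg_lt {p : ℕ} (hp : 0 < p) (l i : ℕ) : dg p l i < p := Nat.mod_lt _ hp

/-- Lucas for `p ^ i`. -/
lemma choose_pow_modEq (p : ℕ) [hp : Fact p.Prime] (i l : ℕ) :
    l.choose (p ^ i) ≡ dg p l i [MOD p] := by
  induction i generalizing l with
  | zero =>
    simp only [pow_zero, Nat.choose_one_right, dg, Nat.div_one]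
    exact (Nat.mod_modEq l p).symm
  | succ i ih =>
    have h := Choose.choose_modEq_choose_mod_mul_choose_div_nat (n := l) (k := p ^ (i + 1)) (p := p)
    have h1 : p ^ (i + 1) % p = 0 := by
      rw [pow_succ]; exact Nat.mul_mod_left _ _
    have h2 : p ^ (i + 1) / p = p ^ i := by
      rw [pow_succ]; exact Nat.mul_div_cancel _ hp.out.pos
    rw [h1, h2, Nat.choose_zero_right, one_mul] at h
    refine h.trans ((ih (l / p)).trans ?_)
    have h3 : dg p (l / p) i = dg p l (i + 1) := by
      unfold dg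
      rw [Nat.div_div_eq_div_mul, pow_succ, mul_comm (p ^ i) p]
    rw [h3]

lemma sum_dg (p : ℕ) (l m : ℕ) :
    ∑ i ∈ Finset.range m, dg p l i * p ^ i + l / p ^ m * p ^ m = l := by
  induction m with
  | zero => simp
  | succ m ih =>
    rw [Finset.sum_range_succ]
    have h : dg p l m * p ^ m + l / p ^ (m + 1) * p ^ (m + 1) = l / p ^ m * p ^ m := by
      unfold dg
      have h1 : l / p ^ (m + 1) = l / p ^ m / p := by
        rw [Nat.div_div_eq_div_mul, pow_succ]
      have h2 := Nat.mod_add_div (l / p ^ m) p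
      rw [h1, pow_succ]
      calc l / p ^ m % p * p ^ m + l / p ^ m / p * (p ^ m * p)
          = (l / p ^ m % p + p * (l / p ^ m / p)) * p ^ m := by ring
        _ = l / p ^ m * p ^ m := by rw [h2]
    rw [add_assoc, h, ih]

lemma sum_dg_of_lt {p : ℕ} {l m : ℕ} (h : l < p ^ m) :
    ∑ i ∈ Finset.range m, dg p l i * p ^ i = l := by
  have h1 := sum_dg p l m
  rw [Nat.div_eq_of_lt h] at h1
  simpa using h1

lemma dg_eq_zero_of_lt {p l m i : ℕ} (hp : 0 < p) (h : l < p ^ m) (hi : m ≤ i) : dg p l i = 0 := by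
  unfold dg
  rw [Nat.div_eq_of_lt (lt_of_lt_of_le h (Nat.pow_le_pow_right hp hi)), Nat.zero_mod]

lemma pow_le_of_dg {p l i : ℕ} (h : dg p l i ≠ 0) : p ^ i ≤ l := by
  by_contra h1
  apply h
  unfold dg
  rw [Nat.div_eq_of_lt (not_le.mp h1), Nat.zero_mod]

lemma dg_sub {p l i : ℕ} (hp : 1 < p) (h : dg p l i ≠ 0) (j : ℕ) :
    dg p (l - p ^ i) j = if j = i then dg p l i - 1 else dg p l j := by
  have hle := pow_le_of_dg h
  have hp0 : 0 < p := by omega
  rcases lt_trichotomy j i with hj | hj | hj
  · rw [if_neg (by omega)]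
    obtain ⟨k, rfl⟩ : ∃ k, i = j + 1 + k := ⟨i - (j + 1), by omega⟩
    unfold dg
    have h1 : p ^ (j + 1 + k) = p ^ j * (p * p ^ k) := by ring
    rw [h1] at hle ⊢
    rw [Nat.sub_mul_div_of_le _ _ _ hle]
    have h3 : p * p ^ k ≤ l / p ^ j := by
      rw [Nat.le_div_iff_mul_le (pow_pos hp0 _)]
      calc p * p ^ k * p ^ j = p ^ j * (p * p ^ k) := by ring
        _ ≤ l := hle
    exact Nat.sub_mul_mod h3
  · subst hj
    rw [if_pos rfl]
    unfold dg at h ⊢
    have h1 : p ^ j ≤ l := hle
    have h2 : (l - p ^ j) / p ^ j = l / p ^ j - 1 := by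
      have := Nat.sub_mul_div_of_le (x := l) (n := p ^ j) (p := 1) (by simpa using h1)
      simpa using this
    rw [h2]
    have h3 : l / p ^ j = p * (l / p ^ j / p) + (l / p ^ j % p) := (Nat.div_add_mod _ _).symm
    have h4 : l / p ^ j - 1 = p * (l / p ^ j / p) + (l / p ^ j % p - 1) := by omega
    rw [h4, Nat.mul_add_mod]
    exact Nat.mod_eq_of_lt (by have := Nat.mod_lt (l / p ^ j) hp0; omega)
  · rw [if_neg (by omega)]
    obtain ⟨k, rfl⟩ : ∃ k, j = i + 1 + k := ⟨j - (i + 1), by omega⟩
    unfold dg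
    have h1 : (l - p ^ i) / p ^ (i + 1) = l / p ^ (i + 1) := by
      have e1 : p ^ (i + 1) = p ^ i * p := pow_succ _ _
      rw [e1, ← Nat.div_div_eq_div_mul, ← Nat.div_div_eq_div_mul]
      have h2 : (l - p ^ i) / p ^ i = l / p ^ i - 1 := by
        have := Nat.sub_mul_div_of_le (x := l) (n := p ^ i) (p := 1) (by simpa using hle)
        simpa using this
      rw [h2]
      have h3 : l / p ^ i = p * (l / p ^ i / p) + (l / p ^ i % p) := (Nat.div_add_mod _ _).symm
      have h5 : l / p ^ i % p ≠ 0 := h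
      have h4 : l / p ^ i - 1 = p * (l / p ^ i / p) + (l / p ^ i % p - 1) := by omega
      rw [h4, Nat.mul_add_div hp0]
      have h6 : (l / p ^ i % p - 1) / p = 0 :=
        Nat.div_eq_of_lt (by have := Nat.mod_lt (l / p ^ i) hp0; omega)
      rw [h6, add_zero]
    have e2 : p ^ (i + 1 + k) = p ^ (i + 1) * p ^ k := by ring
    rw [e2, ← Nat.div_div_eq_div_mul, h1, Nat.div_div_eq_div_mul]

/-- If a set of exponents is closed under lowering a nonzero digit, it contains all sums of distinct
powers of `p` at nonzero digits of its members. -/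
lemma sum_pow_mem {p : ℕ} (hp : 1 < p) {M : Set ℕ}
    (hM : ∀ l ∈ M, ∀ i, dg p l i ≠ 0 → l - p ^ i ∈ M) :
    ∀ l ∈ M, ∀ T : Finset ℕ, (∀ i ∈ T, dg p l i ≠ 0) → ∑ i ∈ T, p ^ i ∈ M := by
  intro l
  induction l using Nat.strong_induction_on with
  | _ l ih =>
    intro hl T hT
    by_cases hc : ∃ i, dg p l i ≠ 0 ∧ (i ∈ T → dg p l i ≠ 1)
    · obtain ⟨i, hi, hi'⟩ := hc
      have h1 : l - p ^ i < l := by
        have := pow_le_of_dg hi
        have := pow_pos (show 0 < p by omega) i
        omega
      refine ih _ h1 (hM l hl i hi) T fun j hj => ?_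
      rw [dg_sub hp hi]
      split_ifs with hji
      · subst hji
        have := hi' hj
        omega
      · exact hT j hj
    · push Not at hc
      have h2 : ∑ i ∈ T, p ^ i = l := by
        obtain ⟨m, hm⟩ : ∃ m, l < p ^ m := ⟨l, Nat.lt_pow_self hp⟩
        rw [← sum_dg_of_lt hm]
        have hsub : T ⊆ Finset.range m := by
          intro i hi
          rw [Finset.mem_range]
          by_contra hcon
          exact hT i hi (dg_eq_zero_of_lt (by omega) hm (by omega))
        rw [← Finset.sum_subset hsub]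
        · refine Finset.sum_congr rfl fun i hi => ?_
          rw [(hc i (hT i hi)).2, one_mul]
        · intro i _ hi
          by_cases h0 : dg p l i = 0
          · rw [h0, zero_mul]
          · exact absurd (hc i h0).1 hi
      rw [h2]; exact hl

/-- the number of nonzero digits among the first `m` -/
def nz (p m l : ℕ) : ℕ := ((Finset.range m).filter fun i => dg p l i ≠ 0).card

/-- the numbers that are sums of `k` terms `d * p ^ i`, `i < m`, `d < p` -/
def bset (p m : ℕ) : ℕ → Finset ℕ
  | 0 => {0}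
  | k + 1 => (bset p m k ×ˢ (Finset.range m ×ˢ Finset.range p)).image
      fun x => x.1 + x.2.2 * p ^ x.2.1

lemma card_bset_le (p m k : ℕ) : (bset p m k).card ≤ (m * p) ^ k := by
  induction k with
  | zero => simp [bset]
  | succ k ih =>
    unfold bset
    refine Finset.card_image_le.trans ?_
    rw [Finset.card_product, Finset.card_product, Finset.card_range, Finset.card_range, pow_succ]
    exact Nat.mul_le_mul_right _ ih

lemma zero_mem_bset {p m : ℕ} (hp : 0 < p) (hm : 0 < m) (k : ℕ) : 0 ∈ bset p m k := by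
  induction k with
  | zero => simp [bset]
  | succ k ih =>
    unfold bset
    rw [Finset.mem_image]
    exact ⟨(0, 0, 0), by simp [ih, hm, hp], by simp⟩

lemma sum_mem_bset {p m : ℕ} (hp : 0 < p) (hm : 0 < m) (l k : ℕ) :
    ∀ A : Finset ℕ, A ⊆ Finset.range m → A.card ≤ k →
      ∑ i ∈ A, dg p l i * p ^ i ∈ bset p m k := by
  induction k with
  | zero =>
    intro A _ h
    have : A = ∅ := Finset.card_eq_zero.mp (by omega)
    subst this
    simp [bset]
  | succ k ih =>
    intro A hA h
    rcases A.eq_empty_or_nonempty with rfl | ⟨a, ha⟩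
    · simpa using zero_mem_bset hp hm (k + 1)
    · have h1 := ih (A.erase a) ((Finset.erase_subset _ _).trans hA)
        (by rw [Finset.card_erase_of_mem ha]; omega)
      unfold bset
      rw [Finset.mem_image]
      refine ⟨(∑ i ∈ A.erase a, dg p l i * p ^ i, a, dg p l a), ?_, ?_⟩
      · simp only [Finset.mem_product, Finset.mem_range]
        exact ⟨h1, Finset.mem_range.mp (hA ha), dg_lt hp _ _⟩
      · exact Finset.sum_erase_add _ _ ha

/-- There are at most `(m * p) ^ k` numbers below `p ^ m` with at most `k` nonzero digits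
(for `m > 0`). -/
lemma card_nz_le {p m k : ℕ} (hp : 0 < p) (hm : 0 < m) (S : Finset ℕ)
    (hS : ∀ l ∈ S, l < p ^ m ∧ nz p m l ≤ k) : S.card ≤ (m * p) ^ k := by
  refine (Finset.card_le_card (t := bset p m k) ?_).trans (card_bset_le p m k)
  intro l hl
  obtain ⟨h1, h2⟩ := hS l hl
  have h3 := sum_mem_bset hp hm l k ((Finset.range m).filter fun i => dg p l i ≠ 0)
    (Finset.filter_subset _ _) h2
  rw [← sum_dg_of_lt h1]
  convert h3 using 1
  symm
  apply Finset.sum_subset (Finset.filter_subset _ _)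
  intro i hi hi'
  rw [Finset.mem_filter, not_and_not_right] at hi'
  rw [hi' hi, zero_mul]

end P61e83e
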