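import Mathlib
import Pool.Agent.Lib.P61e83e.Digits

/-!
Spaces of polynomials of degree less than `|K|` over a field containing the finite field `K`, which
are invariant under the translations by `K` and the dilations by a subgroup of `Kˣ`.
-/

open Polynomial

namespace P61e83e

section translation

variable {K L : Type*} [Field K] [Fintype K] [Field L] (τ : K →+* L)

lemma comp_eq_sum (f : L[X]) (b : L) (n : ℕ) (hn : f.natDegree < n) :
    f.comp (X + C b) = ∑ e ∈ Finset.range n, b ^ e • hasseDeriv e f := by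
  ext k
  rw [← taylor_apply, taylor_coeff, finsetSum_coeff]
  rw [eval_eq_sum_range' (n := n)]
  · refine Finset.sum_congr rfl fun e _ => ?_
    rw [coeff_smul, hasseDeriv_coeff, hasseDeriv_coeff, smul_eq_mul, add_comm k e,
      Nat.choose_symm_add]
    ring
  · have := natDegree_hasseDeriv_le f k
    omega

variable {P : Submodule L L[X]} (hdeg : ∀ f ∈ P, f.natDegree < Fintype.card K)
  (htr : ∀ f ∈ P, ∀ b : K, f.comp (X + C (τ b)) ∈ P)

include hdeg htr

/-- a translation invariant space is closed under Hasse derivatives -/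
lemma hasse_mem (f : L[X]) (hf : f ∈ P) (e : ℕ) : hasseDeriv e f ∈ P := by
  classical
  by_cases he : Fintype.card K ≤ e
  · rw [hasseDeriv_eq_zero_of_lt_natDegree _ _ (lt_of_lt_of_le (hdeg f hf) he)]
    exact P.zero_mem
  push Not at he
  by_contra hcon
  obtain ⟨ψ, hψ, hψP⟩ := Submodule.exists_dual_map_eq_bot_of_notMem hcon inferInstance
  have hz : ∀ g ∈ P, ψ g = 0 := by
    intro g hg
    have : ψ g ∈ P.map ψ := Submodule.mem_map_of_mem hg
    rw [hψP] at this
    exact this
  let g : L[X] := ∑ i ∈ Finset.range (Fintype.card K), C (ψ (hasseDeriv i f)) * X ^ i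
  have hgdeg : g.degree < (Finset.univ : Finset K).card := by
    rw [Finset.card_univ]
    refine (degree_sum_le _ _).trans_lt ?_
    rw [Finset.sup_lt_iff (WithBot.bot_lt_coe _)]
    intro i hi
    exact (degree_C_mul_X_pow_le _ _).trans_lt (by exact_mod_cast Finset.mem_range.mp hi)
  have hg0 : g = 0 := by
    refine Polynomial.eq_zero_of_degree_lt_of_eval_index_eq_zero (s := Finset.univ) (v := τ)
      (τ.injective.injOn) hgdeg fun b _ => ?_
    have h1 := hz _ (htr f hf b)
    rw [comp_eq_sum f (τ b) _ (hdeg f hf), map_sum] at h1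
    rw [eval_finsetSum]
    rw [← h1]
    refine Finset.sum_congr rfl fun i _ => ?_
    rw [map_smul, smul_eq_mul, eval_mul, eval_C, eval_pow, eval_X, mul_comm]
  have hc : g.coeff e = ψ (hasseDeriv e f) := by
    rw [finsetSum_coeff, Finset.sum_eq_single e]
    · rw [coeff_C_mul_X_pow, if_pos rfl]
    · intro i _ hi
      rw [coeff_C_mul_X_pow, if_neg (Ne.symm hi)]
    · intro h
      exact absurd (Finset.mem_range.mpr he) h
  rw [hg0, coeff_zero] at hc
  exact hψ hc.symm

variable (p : ℕ) [hp : Fact p.Prime] [CharP L p]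

lemma lower_mem (l : ℕ) (hl : (X ^ l : L[X]) ∈ P) (i : ℕ) (hi : dg p l i ≠ 0) :
    (X ^ (l - p ^ i) : L[X]) ∈ P := by
  have h := hasse_mem τ hdeg htr _ hl (p ^ i)
  rw [← monomial_one_right_eq_X_pow, hasseDeriv_monomial, mul_one] at h
  have hne : ((l.choose (p ^ i) : ℕ) : L) ≠ 0 := by
    intro h0
    rw [CharP.cast_eq_zero_iff L p] at h0
    have h1 := choose_pow_modEq p i l
    have h2 : dg p l i ≡ 0 [MOD p] := h1.symm.trans ((Nat.modEq_zero_iff_dvd).mpr h0)
    have h3 := (Nat.modEq_zero_iff_dvd).mp h2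
    exact hi (Nat.eq_zero_of_dvd_of_lt h3 (dg_lt hp.out.pos _ _))
  have h4 := P.smul_mem (((l.choose (p ^ i) : ℕ) : L)⁻¹) h
  rw [smul_monomial, smul_eq_mul, inv_mul_cancel₀ hne, monomial_one_right_eq_X_pow] at h4
  exact h4

lemma sum_pow_poly_mem (l : ℕ) (hl : (X ^ l : L[X]) ∈ P) (T : Finset ℕ)
    (hT : ∀ i ∈ T, dg p l i ≠ 0) : (X ^ (∑ i ∈ T, p ^ i) : L[X]) ∈ P :=
  sum_pow_mem (M := {l | (X ^ l : L[X]) ∈ P}) hp.out.one_lt
    (fun l hl i hi => lower_mem τ hdeg htr p l hl i hi) l hl T hT

/-- A monomial in a translation invariant space with a dual word of weight `s` has at most `s - 2`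
nonzero digits. -/
lemma nz_add_two_le (u : K → L) (hu : ∀ f ∈ P, ∑ x, u x * f.eval (τ x) = 0) (hu0 : u ≠ 0)
    [DecidableEq L] (l m : ℕ) (hl : (X ^ l : L[X]) ∈ P) :
    nz p m l + 2 ≤ (Finset.univ.filter fun x => u x ≠ 0).card := by
  classical
  by_contra hcon
  push Not at hcon
  obtain ⟨y, hy⟩ : ∃ y, u y ≠ 0 := by
    by_contra h
    push Not at h
    exact hu0 (funext h)
  set S := Finset.univ.filter fun x => u x ≠ 0 with hS
  have hyS : y ∈ S := by simp [hS, hy]
  have hcard : (S.erase y).card ≤ nz p m l := by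
    rw [Finset.card_erase_of_mem hyS]; omega
  obtain ⟨T, hTsub, hTcard⟩ := Finset.exists_subset_card_eq hcard
  have hTd : ∀ i ∈ T, dg p l i ≠ 0 := fun i hi => (Finset.mem_filter.mp (hTsub hi)).2
  let en : (S.erase y : Finset K) ≃ T := Finset.equivOfCardEq hTcard.symm
  -- exponents
  let ex : K → ℕ := fun x => if h : x ∈ S.erase y then (en ⟨x, h⟩ : ℕ) else 0
  have hex : ∀ x ∈ S.erase y, ex x ∈ T := by
    intro x hx
    simp only [ex, dif_pos hx]
    exact (en ⟨x, hx⟩).2
  have hinj : Set.InjOn ex (S.erase y : Finset K) := by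
    intro a ha b hb hab
    simp only [ex, dif_pos (show a ∈ S.erase y from ha), dif_pos (show b ∈ S.erase y from hb)]
      at hab
    have := en.injective (Subtype.ext hab)
    exact congrArg Subtype.val this
  let g : L[X] := ∏ x ∈ S.erase y, (X - C (τ x)) ^ p ^ ex x
  have hg : g ∈ P := by
    have e1 : g = ∏ x ∈ S.erase y, (X ^ p ^ ex x - C (τ x) ^ p ^ ex x) := by
      refine Finset.prod_congr rfl fun x _ => ?_
      rw [sub_pow_char_pow]
    rw [e1, Finset.prod_sub]
    refine P.sum_mem fun t ht => ?_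
    have e2 : (∏ x ∈ S.erase y \ t, (X : L[X]) ^ p ^ ex x) =
        X ^ (∑ i ∈ (S.erase y \ t).image ex, p ^ i) := by
      rw [Finset.prod_pow_eq_pow_sum, Finset.sum_image]
      intro a ha b hb hab
      exact hinj (Finset.mem_coe.mpr (Finset.mem_sdiff.mp ha).1)
        (Finset.mem_coe.mpr (Finset.mem_sdiff.mp hb).1) hab
    have e3 : (∏ x ∈ t, (C (τ x) : L[X]) ^ p ^ ex x) = C (∏ x ∈ t, τ x ^ p ^ ex x) := by
      rw [map_prod]
      refine Finset.prod_congr rfl fun x _ => ?_
      rw [map_pow]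
    rw [e2, e3]
    have e4 : (-1 : L[X]) ^ t.card = C ((-1) ^ t.card) := by
      rw [map_pow, map_neg, map_one]
    rw [e4, mul_assoc, mul_comm (X ^ _) (C _), ← mul_assoc, ← C_mul, C_mul']
    refine P.smul_mem _ (sum_pow_poly_mem τ hdeg htr p l hl _ fun i hi => ?_)
    rw [Finset.mem_image] at hi
    obtain ⟨x, hx, rfl⟩ := hi
    exact hTd _ (hex x (Finset.mem_sdiff.mp hx).1)
  have h1 := hu g hg
  have h2 : ∑ x, u x * g.eval (τ x) = u y * g.eval (τ y) := by
    refine Finset.sum_eq_single y (fun x _ hx => ?_) (fun h => absurd (Finset.mem_univ y) h)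
    by_cases hux : u x = 0
    · rw [hux, zero_mul]
    · have hxS : x ∈ S.erase y := by simp [hS, hux, hx]
      have : g.eval (τ x) = 0 := by
        rw [eval_prod]
        apply Finset.prod_eq_zero hxS
        simp [hp.out.pos.ne']
      rw [this, mul_zero]
  rw [h2] at h1
  have h3 : g.eval (τ y) ≠ 0 := by
    rw [eval_prod, Finset.prod_ne_zero_iff]
    intro x hx
    rw [eval_pow, eval_sub, eval_X, eval_C]
    apply pow_ne_zero
    rw [sub_ne_zero]
    intro h
    exact (Finset.ne_of_mem_erase hx) (τ.injective h).symm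
  exact (mul_ne_zero hy h3) h1

end translation

end P61e83e
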