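import Mathlib
import Pool.Agent.Lib.P61e83e.Poly

/-!
Dimension of spaces of polynomials invariant under `x ↦ a x + b`, `a` in a subgroup of small index.
-/

open Polynomial

namespace P61e83e

lemma sum_subgroup_pow {K : Type*} [Field K] (H : Subgroup Kˣ) [Fintype H] (k : ℕ) :
    ∑ a : H, ((a : Kˣ) : K) ^ k = if Fintype.card H ∣ k then (Fintype.card H : K) else 0 := by
  have h1 : ∀ a : H, ((a : Kˣ) : K) ^ Fintype.card H = 1 := by
    intro a
    rw [← Units.val_pow_eq_pow_val, ← Subgroup.coe_pow, pow_card_eq_one]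
    rfl
  split_ifs with h
  · obtain ⟨c, rfl⟩ := h
    have : ∀ a : H, ((a : Kˣ) : K) ^ (Fintype.card H * c) = 1 := by
      intro a; rw [pow_mul, h1, one_pow]
    simp [this]
  · have h2 : ∀ a : H, ((a : Kˣ) : K) ^ k = ((a : Kˣ) : K) ^ (k % Fintype.card H) := by
      intro a
      conv_lhs => rw [← Nat.div_add_mod k (Fintype.card H)]
      rw [pow_add, pow_mul, h1, one_pow, one_mul]
    simp_rw [h2]
    refine FiniteField.sum_subgroup_pow_eq_zero ?_ (Nat.mod_lt _ Fintype.card_pos)
    intro h3
    exact h (Nat.dvd_of_mod_eq_zero h3)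

section

variable {K L : Type*} [Field K] [Fintype K] [Field L] (τ : K →+* L)
  {P : Submodule L L[X]} (hdeg : ∀ f ∈ P, f.natDegree < Fintype.card K)
  (htr : ∀ f ∈ P, ∀ b : K, f.comp (X + C (τ b)) ∈ P)
  (H : Subgroup Kˣ) [Fintype H]
  (hH : ∀ f ∈ P, ∀ a ∈ H, f.comp (C (τ (a : Kˣ)) * X) ∈ P)

include hdeg hH in
/-- projection to a residue class of exponents modulo `|H|` -/
lemma class_mem (hcard : ((Fintype.card H : ℕ) : L) ≠ 0) (f : L[X]) (hf : f ∈ P) (j : ℕ) :
    ∑ d ∈ (Finset.range (Fintype.card K)).filter (fun d => d ≡ j [MOD Fintype.card H]),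
      monomial d (f.coeff d) ∈ P := by
  classical
  set h := Fintype.card H with hh
  have hpos : 0 < h := Fintype.card_pos
  let t := h - j % h
  have ht : ∀ d, h ∣ t + d ↔ d ≡ j [MOD h] := by
    intro d
    have h1 : j % h < h := Nat.mod_lt _ hpos
    have h2 : t + d + j = h + (h * (j / h) + d) := by
      have := Nat.div_add_mod j h
      simp only [t]; omega
    constructor
    · intro hd
      have h3 : h ∣ t + d + j - j := by simpa using hd
      have h4 : h ∣ d + (h * (1 + j / h)) - j := by
        have : t + d + j = d + h * (1 + j / h) := by rw [h2]; ring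
        rwa [this] at h3
      have h5 : j ≤ d + h * (1 + j / h) := by
        have : t + d + j = d + h * (1 + j / h) := by rw [h2]; ring
        omega
      have h6 : j ≡ d + h * (1 + j / h) [MOD h] := (Nat.modEq_iff_dvd' h5).mpr h4
      have h7 : d + h * (1 + j / h) ≡ d [MOD h] := by
        simp [Nat.ModEq]
      exact (h6.trans h7).symm
    · intro hd
      have h3 : t + d ≡ t + j [MOD h] := Nat.ModEq.add_left _ hd
      have h4 : t + j = h * (1 + j / h) := by
        have := Nat.div_add_mod j h
        simp only [t]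
        rw [mul_add, mul_one]
        omega
      rw [← Nat.modEq_zero_iff_dvd]
      refine h3.trans ?_
      rw [h4, Nat.modEq_zero_iff_dvd]
      exact dvd_mul_right _ _
  let S : L[X] := ∑ a : H, (τ (((a : Kˣ) : K) ^ t)) • f.comp (C (τ ((a : Kˣ) : K)) * X)
  have hS : S ∈ P := P.sum_mem fun a _ => P.smul_mem _ (hH f hf a a.2)
  have hS2 : (h : L)⁻¹ • S ∈ P := P.smul_mem _ hS
  convert hS2 using 1
  ext d
  rw [finsetSum_coeff, coeff_smul, smul_eq_mul, finsetSum_coeff]
  have h8 : ∀ a : H, ((τ (((a : Kˣ) : K) ^ t)) • f.comp (C (τ ((a : Kˣ) : K)) * X)).coeff d =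
      f.coeff d * τ (((a : Kˣ) : K) ^ (t + d)) := by
    intro a
    rw [coeff_smul, comp_C_mul_X_coeff, smul_eq_mul, pow_add, map_mul, map_pow, map_pow]
    ring
  simp_rw [h8]
  rw [← Finset.mul_sum, ← map_sum, sum_subgroup_pow H (t + d)]
  have h9 : ∑ b ∈ (Finset.range (Fintype.card K)).filter (fun d => d ≡ j [MOD h]),
      (monomial b (f.coeff b) : L[X]).coeff d =
      if d < Fintype.card K ∧ d ≡ j [MOD h] then f.coeff d else 0 := by
    simp_rw [coeff_monomial]
    rw [Finset.sum_ite_eq']
    simp [Finset.mem_filter]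
  rw [h9]
  by_cases hd : d < Fintype.card K
  · by_cases hd2 : d ≡ j [MOD h]
    · rw [if_pos ⟨hd, hd2⟩, if_pos ((ht d).mpr hd2), map_natCast, ← hh]
      field_simp
    · rw [if_neg (fun h => hd2 h.2), if_neg (fun h => hd2 ((ht d).mp h)), map_zero, mul_zero,
        mul_zero]
  · rw [if_neg (fun h => hd h.1)]
    rw [coeff_eq_zero_of_natDegree_lt (lt_of_lt_of_le (hdeg f hf) (not_lt.mp hd)), zero_mul,
      mul_zero]

variable (p : ℕ) [hp : Fact p.Prime] [CharP L p]

/-- A binomial coefficient that is one modulo `p`. -/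
lemma choose_modEq_one (k : ℕ) : ∀ a l : ℕ, l < p ^ k →
    (p ^ k * a + l).choose (p ^ k * a) ≡ 1 [MOD p] := by
  induction k with
  | zero =>
    intro a l hl
    have : l = 0 := by simpa using hl
    subst this
    simp [Nat.ModEq]
  | succ k ih =>
    intro a l hl
    have h := Choose.choose_modEq_choose_mod_mul_choose_div_nat
      (n := p ^ (k + 1) * a + l) (k := p ^ (k + 1) * a) (p := p)
    have hp0 := hp.out.pos
    have e1 : p ^ (k + 1) * a = p * (p ^ k * a) := by ring
    have h1 : p ^ (k + 1) * a % p = 0 := by rw [e1]; exact Nat.mul_mod_right _ _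
    have h2 : p ^ (k + 1) * a / p = p ^ k * a := by
      rw [e1]; exact Nat.mul_div_cancel_left _ hp0
    have h3 : (p ^ (k + 1) * a + l) / p = p ^ k * a + l / p := by
      rw [e1, Nat.mul_add_div hp0]
    rw [h1, h2, h3, Nat.choose_zero_right, one_mul] at h
    refine h.trans (ih a (l / p) ?_)
    rw [Nat.div_lt_iff_lt_mul hp0]
    calc l < p ^ (k + 1) := hl
      _ = p ^ k * p := pow_succ _ _

include hdeg htr hH in
/-- the low part of the degree of an element of an invariant space is the exponent of a monomial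
of the space -/
lemma low_mem (k : ℕ) (hk : p ^ k ≤ Fintype.card H) (hcard : ((Fintype.card H : ℕ) : L) ≠ 0)
    (f : L[X]) (hf : f ∈ P) (hf0 : f ≠ 0) :
    (X ^ (f.natDegree % p ^ k) : L[X]) ∈ P := by
  classical
  set D := f.natDegree with hD
  set N := p ^ k with hN
  have hNpos : 0 < N := pow_pos hp.out.pos _
  have hDlt : D < Fintype.card K := hdeg f hf
  set g := ∑ d ∈ (Finset.range (Fintype.card K)).filter (fun d => d ≡ D [MOD Fintype.card H]),
      monomial d (f.coeff d) with hg
  have hgP : g ∈ P := class_mem τ hdeg H hH hcard f hf D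
  have hgc : ∀ d, g.coeff d = if d < Fintype.card K ∧ d ≡ D [MOD Fintype.card H]
      then f.coeff d else 0 := by
    intro d
    rw [hg, finsetSum_coeff]
    simp_rw [coeff_monomial]
    rw [Finset.sum_ite_eq']
    simp [Finset.mem_filter]
  have h1 := hasse_mem τ hdeg htr g hgP (N * (D / N))
  have h2 : hasseDeriv (N * (D / N)) g =
      C ((D.choose (N * (D / N)) : L) * f.coeff D) * X ^ (D % N) := by
    ext i
    rw [hasseDeriv_coeff, coeff_C_mul_X_pow, hgc]
    have hDN := Nat.div_add_mod D N
    by_cases hi : i = D % N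
    · have e : i + N * (D / N) = D := by omega
      rw [if_pos hi, e, if_pos ⟨hDlt, rfl⟩]
    · rw [if_neg hi]
      by_cases hi2 : i + N * (D / N) < Fintype.card K ∧
          i + N * (D / N) ≡ D [MOD Fintype.card H]
      · by_cases hi3 : i + N * (D / N) ≤ D
        · exfalso
          have hm := Nat.mod_lt D hNpos
          have h3 : Fintype.card H ∣ D - (i + N * (D / N)) :=
            (Nat.modEq_iff_dvd' hi3).mp hi2.2
          have h4 : D - (i + N * (D / N)) < Fintype.card H := by omega
          have h5 := Nat.eq_zero_of_dvd_of_lt h3 h4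
          omega
        · rw [if_pos hi2, coeff_eq_zero_of_natDegree_lt (by omega), mul_zero]
      · rw [if_neg hi2, mul_zero]
  rw [h2] at h1
  have hne : (D.choose (N * (D / N)) : L) * f.coeff D ≠ 0 := by
    apply mul_ne_zero
    · intro h0
      rw [CharP.cast_eq_zero_iff L p] at h0
      have h6 := choose_modEq_one p k (D / N) (D % N) (Nat.mod_lt _ hNpos)
      rw [← hN, Nat.div_add_mod] at h6
      have h7 : 1 ≡ 0 [MOD p] := h6.symm.trans ((Nat.modEq_zero_iff_dvd).mpr h0)
      have h8 := (Nat.modEq_zero_iff_dvd).mp h7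
      exact hp.out.one_lt.ne' (Nat.dvd_one.mp h8)
    · rw [hD]
      exact fun h => hf0 (leadingCoeff_eq_zero.mp h)
  have h9 := P.smul_mem (((D.choose (N * (D / N)) : L) * f.coeff D)⁻¹) h1
  rw [← C_mul', ← mul_assoc, ← C_mul, inv_mul_cancel₀ hne, C_1, one_mul] at h9
  exact h9

end

/-- A space of polynomials has dimension at most the number of degrees of its nonzero members. -/
lemma finrank_le_card_degrees {L : Type*} [Field L] (P : Submodule L L[X]) (D : Finset ℕ)
    (h : ∀ f ∈ P, f ≠ 0 → f.natDegree ∈ D) : Module.finrank L P ≤ D.card := by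
  let φ : P →ₗ[L] (D → L) :=
    { toFun := fun f d => (f : L[X]).coeff d
      map_add' := fun f g => by ext d; simp
      map_smul' := fun c f => by ext d; simp }
  have hinj : Function.Injective φ := by
    rw [injective_iff_map_eq_zero]
    intro f hf
    by_contra hne
    have hne' : (f : L[X]) ≠ 0 := fun h => hne (Subtype.ext h)
    have h1 := h f f.2 hne'
    have h2 := congrFun hf ⟨_, h1⟩
    exact hne' (leadingCoeff_eq_zero.mp h2)
  have := LinearMap.finrank_le_finrank_of_injective hinj
  simpa using this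

end P61e83e
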