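import Mathlib
import Pool.Agent.Lib.P61e83e.Lead

/-!
The dimension bound in equal characteristic.
-/

open Polynomial

namespace P61e83e

section polybound

variable {K L : Type*} [Field K] [Fintype K] [Field L] (τ : K →+* L)
  {P : Submodule L L[X]} (hdeg : ∀ f ∈ P, f.natDegree < Fintype.card K)
  (htr : ∀ f ∈ P, ∀ b : K, f.comp (X + C (τ b)) ∈ P)
  (H : Subgroup Kˣ) [Fintype H]
  (hH : ∀ f ∈ P, ∀ a ∈ H, f.comp (C (τ (a : Kˣ)) * X) ∈ P)
  (p : ℕ) [hp : Fact p.Prime] [CharP L p]

include hdeg htr hH in
lemma finrank_poly_le (m : ℕ) (hm : 0 < m) (hcardK : Fintype.card K = p ^ m)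
    (u : K → L) (hu : ∀ f ∈ P, ∑ x, u x * f.eval (τ x) = 0) (hu0 : u ≠ 0)
    [DecidableEq L] (q : ℕ) (hq : (Finset.univ.filter fun x => u x ≠ 0).card ≤ q)
    (r w : ℕ) (hr : r * Fintype.card H + 1 = p ^ m) (hrw : p * r ≤ p ^ w) :
    Module.finrank L P ≤ p ^ w * (m * p) ^ (q - 2) := by
  classical
  have hp1 := hp.out.one_lt
  have hppos : 0 < p := by omega
  have hpm : 2 ≤ p ^ m := by
    calc 2 ≤ p := hp1
      _ = p ^ 1 := (pow_one p).symm
      _ ≤ p ^ m := Nat.pow_le_pow_right hppos hm
  have hrpos : 0 < r := by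
    rcases Nat.eq_zero_or_pos r with rfl | h
    · simp at hr; omega
    · exact h
  have hHcard : ((Fintype.card H : ℕ) : L) ≠ 0 := by
    intro h0
    rw [CharP.cast_eq_zero_iff L p] at h0
    have h1 : p ∣ r * Fintype.card H := Dvd.dvd.mul_left h0 r
    have h2 : p ∣ p ^ m := dvd_pow_self p hm.ne'
    rw [← hr] at h2
    have h3 := (Nat.dvd_add_right h1).mp h2
    exact hp1.ne' (Nat.dvd_one.mp h3)
  let D : Finset ℕ := (Finset.range (Fintype.card K)).filter
    fun d => ∃ f ∈ P, f ≠ 0 ∧ f.natDegree = d
  have hD : Module.finrank L P ≤ D.card := by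
    refine finrank_le_card_degrees P D fun f hf hf0 => ?_
    rw [Finset.mem_filter, Finset.mem_range]
    exact ⟨hdeg f hf, f, hf, hf0, rfl⟩
  refine hD.trans ?_
  by_cases hwm : w < m
  · obtain ⟨k, rfl⟩ : ∃ k, m = w + k := ⟨m - w, by omega⟩
    have hk : p ^ k ≤ Fintype.card H := by
      have h1 : p * (p ^ k * r) ≤ p ^ (w + k) := by
        calc p * (p ^ k * r) = p ^ k * (p * r) := by ring
          _ ≤ p ^ k * p ^ w := Nat.mul_le_mul_left _ hrw
          _ = p ^ (w + k) := by ring
      have h2 : 2 * (p ^ k * r) ≤ p ^ (w + k) := (Nat.mul_le_mul_right _ hp1).trans h1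
      have h3 : p ^ k * r ≤ r * Fintype.card H := by omega
      rw [mul_comm] at h3
      exact Nat.le_of_mul_le_mul_left h3 hrpos
    set S : Finset ℕ := (Finset.range (p ^ k)).filter fun l => (X ^ l : L[X]) ∈ P with hS
    have hScard : S.card ≤ ((w + k) * p) ^ (q - 2) := by
      refine card_nz_le hppos hm S fun l hl => ?_
      rw [hS, Finset.mem_filter, Finset.mem_range] at hl
      refine ⟨lt_of_lt_of_le hl.1 (Nat.pow_le_pow_right hppos (by omega)), ?_⟩
      have := nz_add_two_le τ hdeg htr p u hu hu0 l (w + k) hl.2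
      omega
    have hmap : D.card ≤ (Finset.range (p ^ w) ×ˢ S).card := by
      refine Finset.card_le_card_of_injOn (fun d => (d / p ^ k, d % p ^ k)) ?_ ?_
      · intro d hd
        have hd' := (Finset.mem_filter.mp (Finset.mem_coe.mp hd))
        obtain ⟨hd1, f, hf, hf0, rfl⟩ := hd'
        rw [Finset.mem_range, hcardK] at hd1
        simp only [Finset.coe_product, Set.mem_prod, Finset.mem_coe, Finset.mem_range]
        refine ⟨?_, ?_⟩
        · rw [Nat.div_lt_iff_lt_mul (pow_pos hppos _), ← pow_add]
          exact hd1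
        · rw [hS, Finset.mem_filter, Finset.mem_range]
          exact ⟨Nat.mod_lt _ (pow_pos hppos _),
            low_mem τ hdeg htr H hH p k hk hHcard f hf hf0⟩
      · intro a _ b _ hab
        simp only [Prod.mk.injEq] at hab
        rw [← Nat.div_add_mod a (p ^ k), ← Nat.div_add_mod b (p ^ k), hab.1, hab.2]
    refine hmap.trans ?_
    rw [Finset.card_product, Finset.card_range]
    exact Nat.mul_le_mul_left _ hScard
  · have h1 : D.card ≤ p ^ m := by
      calc D.card ≤ (Finset.range (Fintype.card K)).card := Finset.card_filter_le _ _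
        _ = p ^ m := by rw [Finset.card_range, hcardK]
    calc D.card ≤ p ^ m := h1
      _ ≤ p ^ w := Nat.pow_le_pow_right hppos (by omega)
      _ = p ^ w * 1 := (mul_one _).symm
      _ ≤ p ^ w * (m * p) ^ (q - 2) :=
        Nat.mul_le_mul_left _ (Nat.one_le_pow _ _ (Nat.mul_pos hm hppos))

end polybound

section scalars

variable {F K : Type*} [Field F] [Fintype K] {L : Type*} [Field L] (ι : F →+* L)

/-- extension of scalars of a code -/
def ext (C : Submodule F (K → F)) : Submodule L (K → L) :=
  Submodule.span L ((fun (f : K → F) (x : K) => ι (f x)) '' (C : Set (K → F)))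

lemma finrank_le_ext (C : Submodule F (K → F)) :
    Module.finrank F C ≤ Module.finrank L (ext ι C) := by
  classical
  let b := Module.finBasis F C
  set d := Module.finrank F C with hd
  -- left inverse of the coordinate map
  let T : (Fin d → F) →ₗ[F] (K → F) := Fintype.linearCombination F (fun i => ((b i : C) : K → F))
  have hT : Function.Injective T := by
    have h1 : LinearIndependent F (fun i => ((b i : C) : K → F)) :=
      b.linearIndependent.map' C.subtype (Submodule.ker_subtype C)
    exact h1.fintypeLinearCombination_injective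
  obtain ⟨G, hG⟩ := LinearMap.exists_leftInverse_of_injective T (LinearMap.ker_eq_bot.mpr hT)
  let A : Fin d → K → F := fun i x => G (Pi.single x 1) i
  have hA : ∀ (i : Fin d) (f : K → F), G f i = ∑ x, f x * A i x := by
    intro i f
    have : f = ∑ x, f x • (Pi.single x (1 : F) : K → F) := by
      ext y
      simp [Finset.sum_apply, Pi.single_apply]
    conv_lhs => rw [this, map_sum]
    rw [Finset.sum_apply]
    simp [A]
  have hAb : ∀ i j, ∑ x, ((b j : C) : K → F) x * A i x = if i = j then 1 else 0 := by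
    intro i j
    rw [← hA]
    have h1 : T (Pi.single j 1) = ((b j : C) : K → F) := by
      simp [T, Fintype.linearCombination_apply_single]
    rw [← h1]
    have h2 := LinearMap.congr_fun hG (Pi.single j (1 : F))
    rw [LinearMap.comp_apply, LinearMap.id_apply] at h2
    rw [h2, Pi.single_apply]
  have hmem : ∀ j, (fun x => ι (((b j : C) : K → F) x)) ∈ ext ι C := fun j =>
    Submodule.subset_span ⟨_, (b j).2, rfl⟩
  let v : Fin d → ext ι C := fun j => ⟨_, hmem j⟩
  have hv : LinearIndependent L v := by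
    rw [Fintype.linearIndependent_iff]
    intro c hc i
    have h1 := congrArg (fun z : ext ι C => ∑ x, (z : K → L) x * ι (A i x)) hc
    simp only [Submodule.coe_zero, Pi.zero_apply, zero_mul, Finset.sum_const_zero,
      Submodule.coe_sum, Submodule.coe_smul, Finset.sum_apply, Pi.smul_apply, smul_eq_mul,
      v] at h1
    have h2 : ∑ x, (∑ j, c j * ι (((b j : C) : K → F) x)) * ι (A i x) =
        ∑ j, c j * ι (∑ x, ((b j : C) : K → F) x * A i x) := by
      simp_rw [Finset.sum_mul, map_sum, Finset.mul_sum, map_mul]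
      rw [Finset.sum_comm]
      refine Finset.sum_congr rfl fun j _ => Finset.sum_congr rfl fun x _ => ?_
      ring
    rw [h2] at h1
    simp_rw [hAb] at h1
    simpa using h1
  have := hv.fintype_card_le_finrank
  simpa using this

end scalars

section main

variable {F K L : Type*} [Field F] [Field K] [Fintype K] [Field L] (ι : F →+* L) (τ : K →+* L)

/-- the polynomials of degree less than `|K|` whose values on `K` lie in the extension of `C` -/
noncomputable def poly (C : Submodule F (K → F)) : Submodule L L[X] :=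
  degreeLT L (Fintype.card K) ⊓
    (ext ι C).comap (LinearMap.pi fun x => Polynomial.leval (τ x))

lemma mem_poly {C : Submodule F (K → F)} {f : L[X]} :
    f ∈ poly ι τ C ↔ f.degree < Fintype.card K ∧ (fun x => f.eval (τ x)) ∈ ext ι C := by
  unfold poly
  rw [Submodule.mem_inf, mem_degreeLT, Submodule.mem_comap]
  rfl

lemma natDegree_lt_of_mem {C : Submodule F (K → F)} {f : L[X]} (hf : f ∈ poly ι τ C) :
    f.natDegree < Fintype.card K := by
  by_cases h0 : f = 0
  · rw [h0, natDegree_zero]; exact Fintype.card_pos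
  · rw [natDegree_lt_iff_degree_lt h0]
    exact ((mem_poly ι τ).mp hf).1

lemma ext_comp {C : Submodule F (K → F)} (σ : K → K)
    (hσ : ∀ f ∈ C, (fun x => f (σ x)) ∈ C) {φ : K → L} (hφ : φ ∈ ext ι C) :
    (fun x => φ (σ x)) ∈ ext ι C := by
  have h : ext ι C ≤ (ext ι C).comap (LinearMap.funLeft L L σ) := by
    unfold ext
    rw [Submodule.span_le]
    rintro _ ⟨f, hf, rfl⟩
    exact Submodule.subset_span ⟨_, hσ f hf, rfl⟩
  exact h hφ

lemma ext_dual {C : Submodule F (K → F)} (u : K → F) (hu : ∀ f ∈ C, ∑ x, u x * f x = 0)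
    {φ : K → L} (hφ : φ ∈ ext ι C) : ∑ x, ι (u x) * φ x = 0 := by
  have h : ext ι C ≤ LinearMap.ker (∑ x, ι (u x) • (LinearMap.proj x : (K → L) →ₗ[L] L)) := by
    unfold ext
    rw [Submodule.span_le]
    rintro _ ⟨f, hf, rfl⟩
    rw [SetLike.mem_coe, LinearMap.mem_ker]
    simp only [LinearMap.sum_apply, LinearMap.smul_apply, LinearMap.proj_apply, smul_eq_mul]
    rw [← map_zero ι, ← hu f hf, map_sum]
    exact Finset.sum_congr rfl fun x _ => (map_mul _ _ _).symm
  have := h hφ
  rw [LinearMap.mem_ker] at this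
  simpa only [LinearMap.sum_apply, LinearMap.smul_apply, LinearMap.proj_apply, smul_eq_mul]
    using this

lemma poly_trans {C : Submodule F (K → F)} (hC : ∀ f ∈ C, ∀ b, (fun x => f (x + b)) ∈ C)
    {f : L[X]} (hf : f ∈ poly ι τ C) (b : K) : f.comp (X + Polynomial.C (τ b)) ∈ poly ι τ C := by
  rw [mem_poly] at hf ⊢
  refine ⟨?_, ?_⟩
  · rw [← taylor_apply, degree_taylor]; exact hf.1
  · have h := ext_comp ι (fun x => x + b) (fun g hg => hC g hg b) hf.2
    convert h using 2 with x
    simp

lemma poly_dil {C : Submodule F (K → F)} (a : Kˣ)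
    (hC : ∀ f ∈ C, (fun x => f ((a : K) * x)) ∈ C)
    {f : L[X]} (hf : f ∈ poly ι τ C) : f.comp (Polynomial.C (τ a) * X) ∈ poly ι τ C := by
  have hd := natDegree_lt_of_mem ι τ hf
  rw [mem_poly] at hf ⊢
  refine ⟨?_, ?_⟩
  · by_cases h0 : f.comp (Polynomial.C (τ a) * X) = 0
    · rw [h0, degree_zero]; exact WithBot.bot_lt_coe _
    · rw [← natDegree_lt_iff_degree_lt h0]
      refine lt_of_le_of_lt natDegree_comp_le ?_
      have : (Polynomial.C (τ (a : K)) * X : L[X]).natDegree ≤ 1 :=
        (natDegree_C_mul_le _ _).trans natDegree_X_le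
      calc f.natDegree * (Polynomial.C (τ (a : K)) * X : L[X]).natDegree
          ≤ f.natDegree * 1 := Nat.mul_le_mul_left _ this
        _ < _ := by rw [mul_one]; exact hd
  · have h := ext_comp ι (fun x => (a : K) * x) hC hf.2
    convert h using 2 with x
    simp

lemma finrank_ext_le_poly (C : Submodule F (K → F)) :
    Module.finrank L (ext ι C) ≤ Module.finrank L (poly ι τ C) := by
  classical
  let φ : poly ι τ C →ₗ[L] ext ι C :=
    { toFun := fun f => ⟨fun x => (f : L[X]).eval (τ x), ((mem_poly ι τ).mp f.2).2⟩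
      map_add' := fun f g => by ext x; simp
      map_smul' := fun c f => by ext x; simp }
  have hsurj : Function.Surjective φ := by
    intro ψ
    have hinj : Set.InjOn τ ((Finset.univ : Finset K) : Set K) := τ.injective.injOn
    let f := Lagrange.interpolate Finset.univ τ (ψ : K → L)
    have hfe : ∀ x, f.eval (τ x) = (ψ : K → L) x := fun x =>
      Lagrange.eval_interpolate_at_node _ hinj (Finset.mem_univ x)
    have hfd : f.degree < Fintype.card K := by
      have := Lagrange.degree_interpolate_lt (ψ : K → L) hinj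
      rwa [Finset.card_univ] at this
    refine ⟨⟨f, (mem_poly ι τ).mpr ⟨hfd, ?_⟩⟩, ?_⟩
    · have : (fun x => f.eval (τ x)) = (ψ : K → L) := funext hfe
      rw [this]; exact ψ.2
    · ext x
      exact hfe x
  have : Module.Finite L (poly ι τ C) := by
    have : Module.Finite L (degreeLT L (Fintype.card K)) :=
      Module.Finite.equiv (degreeLTEquiv L _).symm
    exact Submodule.finiteDimensional_of_le (inf_le_left : poly ι τ C ≤ _)
  exact LinearMap.finrank_le_finrank_of_surjective hsurj

end main

/-- **Dimension bound in equal characteristic.** -/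
theorem finrank_le_same {F K : Type*} [Field F] [Field K] [Fintype K]
    (p : ℕ) [hp : Fact p.Prime] [CharP F p] [CharP K p] (m : ℕ) (hm : 0 < m)
    (hcardK : Fintype.card K = p ^ m) (H : Subgroup Kˣ) [Fintype H]
    (C : Submodule F (K → F)) (htr : ∀ f ∈ C, ∀ b, (fun x => f (x + b)) ∈ C)
    (hdil : ∀ f ∈ C, ∀ a ∈ H, (fun x => f ((a : Kˣ) * x)) ∈ C)
    (u : K → F) (hu : ∀ f ∈ C, ∑ x, u x * f x = 0) (hu0 : u ≠ 0) [DecidableEq F] (q : ℕ)
    (hq : (Finset.univ.filter fun x => u x ≠ 0).card ≤ q)
    (r w : ℕ) (hr : r * Fintype.card H + 1 = p ^ m) (hrw : p * r ≤ p ^ w) :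
    Module.finrank F C ≤ p ^ w * (m * p) ^ (q - 2) := by
  classical
  let L := AlgebraicClosure F
  let ι : F →+* L := algebraMap F L
  have : CharP L p := charP_of_injective_algebraMap (algebraMap F L).injective p
  let _ := ZMod.algebra K p
  let _ := ZMod.algebra L p
  have : Module.Finite (ZMod p) K := Module.Finite.of_finite
  let τ : K →+* L := (IsAlgClosed.lift (R := ZMod p) (S := K) (M := L)).toRingHom
  refine (finrank_le_ext ι C).trans ((finrank_ext_le_poly ι τ C).trans ?_)
  refine finrank_poly_le τ (P := poly ι τ C) (fun f hf => natDegree_lt_of_mem ι τ hf)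
    (fun f hf b => poly_trans ι τ htr hf b) H
    (fun f hf a ha => poly_dil ι τ a (fun g hg => hdil g hg a ha) hf) p m hm hcardK
    (fun x => ι (u x)) ?_ ?_ q ?_ r w hr hrw
  · intro f hf
    exact ext_dual ι u hu ((mem_poly ι τ).mp hf).2
  · intro h
    apply hu0
    funext x
    have := congrFun h x
    exact (map_eq_zero ι).mp this
  · have : (Finset.univ.filter fun x => ι (u x) ≠ 0) = Finset.univ.filter fun x => u x ≠ 0 := by
      ext x
      simp
    rw [this]
    exact hq

end P61e83e
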