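import Mathlib

/-!
A locally testable code of linear distance has a nonzero dual word of weight at most the number of
queries.
-/

open Classical

namespace P61e83e

/-- If no nonzero dual word has weight at most `q`, every word agrees with a codeword on any `q`
positions. -/
lemma exists_agree {F : Type*} [Field F] {n : ℕ} (C : Submodule F (Fin n → F)) (q : ℕ)
    (hno : ∀ u : Fin n → F, (Finset.univ.filter fun i => u i ≠ 0).card ≤ q →
      (∀ c ∈ C, ∑ i, u i * c i = 0) → u = 0)
    (S : Finset (Fin n)) (hS : S.card ≤ q) (r : Fin n → F) :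
    ∃ c ∈ C, ∀ i ∈ S, c i = r i := by
  let ρ : C →ₗ[F] (S → F) :=
    { toFun := fun c i => (c : Fin n → F) i
      map_add' := fun _ _ => rfl
      map_smul' := fun _ _ => rfl }
  have hsurj : LinearMap.range ρ = ⊤ := by
    by_contra hne
    obtain ⟨x, hx⟩ : ∃ x, x ∉ LinearMap.range ρ := by
      by_contra hcon
      push Not at hcon
      exact hne (Submodule.eq_top_iff'.mpr hcon)
    obtain ⟨ψ, hψ, hψ0⟩ := Submodule.exists_dual_map_eq_bot_of_notMem hx inferInstance
    let u : Fin n → F := fun i => if h : i ∈ S then ψ (Pi.single ⟨i, h⟩ 1) else 0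
    have hψu : ∀ g : Fin n → F, ψ (fun i : S => g i) = ∑ i, u i * g i := by
      intro g
      have e1 : (fun i : S => g i) = ∑ j : S, g j • (Pi.single j 1 : S → F) := by
        funext i
        simp [Finset.sum_apply, Pi.single_apply]
      rw [e1, map_sum]
      have e2 : ∑ i, u i * g i = ∑ i ∈ S, u i * g i := by
        symm
        apply Finset.sum_subset (Finset.subset_univ S)
        intro i _ hi
        simp [u, hi]
      rw [e2, ← Finset.sum_coe_sort S]
      refine Finset.sum_congr rfl fun j _ => ?_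
      rw [map_smul, smul_eq_mul, mul_comm]
      congr 1
      simp [u]
    have hu : u = 0 := by
      refine hno u ?_ ?_
      · refine (Finset.card_le_card ?_).trans hS
        intro i hi
        rw [Finset.mem_filter] at hi
        by_contra hcon
        exact hi.2 (by simp [u, hcon])
      · intro c hc
        rw [← hψu c]
        have h1 : ψ (ρ ⟨c, hc⟩) ∈ (LinearMap.range ρ).map ψ :=
          Submodule.mem_map_of_mem (LinearMap.mem_range_self _ _)
        rw [hψ0] at h1
        exact h1
    apply hψ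
    have h2 := hψu (fun i => if h : i ∈ S then x ⟨i, h⟩ else 0)
    have h3 : (fun i : S => (fun i => if h : i ∈ S then x ⟨i, h⟩ else 0) (i : Fin n)) = x := by
      funext i
      simp
    rw [h3, hu] at h2
    simpa using h2
  have hr : (fun i : S => r i) ∈ LinearMap.range ρ := by rw [hsurj]; trivial
  obtain ⟨c, hc⟩ := hr
  exact ⟨c, c.2, fun i hi => congrFun hc ⟨i, hi⟩⟩

/-- A code of relative distance at least `3 ε` has words far from it. -/
lemma exists_far {F : Type*} [Field F] {n : ℕ} (C : Submodule F (Fin n → F)) (ε : ℝ)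
    (hC : C ≠ ⊥) (hεn : 1 ≤ ε * n)
    (hdist : ∀ c ∈ C, c ≠ 0 →
      3 * ε * (n : ℝ) ≤ ((Finset.univ.filter (fun i => c i ≠ 0)).card : ℝ)) :
    ∃ r : Fin n → F, ∀ c ∈ C,
      ε * (n : ℝ) ≤ ((Finset.univ.filter (fun i => r i ≠ c i)).card : ℝ) := by
  obtain ⟨c0, hc0, hne⟩ := Submodule.exists_mem_ne_zero_of_ne_bot hC
  have h1 := hdist c0 hc0 hne
  set t := ⌈ε * (n : ℝ)⌉₊ with ht
  have ht1 : ε * (n : ℝ) ≤ t := Nat.le_ceil _
  have ht2 : (t : ℝ) < ε * n + 1 := Nat.ceil_lt_add_one (by linarith)
  have ht3 : t ≤ (Finset.univ.filter (fun i => c0 i ≠ 0)).card := by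
    have : (t : ℝ) ≤ ((Finset.univ.filter (fun i => c0 i ≠ 0)).card : ℝ) := by
      have e : 3 * ε * (n : ℝ) = 3 * (ε * n) := by ring
      rw [e] at h1
      linarith
    exact_mod_cast this
  obtain ⟨A, hA, hAc⟩ := Finset.exists_subset_card_eq ht3
  refine ⟨fun i => if i ∈ A then c0 i else 0, fun c hc => ?_⟩
  by_cases hc0' : c = 0
  · have h2 : A ⊆ Finset.univ.filter (fun i => (if i ∈ A then c0 i else 0) ≠ c i) := by
      intro i hi
      rw [Finset.mem_filter]
      refine ⟨Finset.mem_univ _, ?_⟩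
      rw [if_pos hi, hc0']
      exact (Finset.mem_filter.mp (hA hi)).2
    have h3 := Finset.card_le_card h2
    rw [hAc] at h3
    calc ε * (n : ℝ) ≤ t := ht1
      _ ≤ _ := by exact_mod_cast h3
  · have h2 := hdist c hc hc0'
    have h3 : Finset.univ.filter (fun i => c i ≠ 0) ⊆
        Finset.univ.filter (fun i => (if i ∈ A then c0 i else 0) ≠ c i) ∪ A := by
      intro i hi
      rw [Finset.mem_filter] at hi
      rw [Finset.mem_union]
      by_cases hiA : i ∈ A
      · right; exact hiA
      · left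
        rw [Finset.mem_filter]
        refine ⟨Finset.mem_univ _, ?_⟩
        rw [if_neg hiA]
        exact Ne.symm hi.2
    have h4 := (Finset.card_le_card h3).trans (Finset.card_union_le _ _)
    rw [hAc] at h4
    have h5 : ((Finset.univ.filter (fun i => c i ≠ 0)).card : ℝ) ≤
        ((Finset.univ.filter (fun i => (if i ∈ A then c0 i else 0) ≠ c i)).card : ℝ) + t := by
      exact_mod_cast h4
    have e : 3 * ε * (n : ℝ) = 3 * (ε * n) := by ring
    rw [e] at h2
    linarith

/-- A locally testable code of relative distance at least `3 ε` has a dual word of small weight. -/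
lemma exists_dual {F : Type*} [Field F] {n : ℕ} (C : Submodule F (Fin n → F)) (q : ℕ) (ε s : ℝ)
    (hs : 0 < s) (hC : C ≠ ⊥) (hεn : 1 ≤ ε * n)
    (hdist : ∀ c ∈ C, c ≠ 0 →
      3 * ε * (n : ℝ) ≤ ((Finset.univ.filter (fun i => c i ≠ 0)).card : ℝ))
    (htest : ∃ (m : ℕ) (Q : Fin m → List F → Fin n) (w : Fin m → ℝ),
        (∀ k, 0 ≤ w k) ∧ (∑ k, w k) = 1 ∧
        ∀ r : Fin n → F,
          (∀ c ∈ C, ε * (n : ℝ) ≤ ((Finset.univ.filter (fun i => r i ≠ c i)).card : ℝ)) →
          s ≤ ∑ k, (if (∃ L : ℕ → Fin n,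
                (∀ t, t < q → L t = Q k ((List.range t).map (fun i => r (L i)))) ∧
                ¬ ∃ c ∈ C, ∀ t, t < q → c (L t) = r (L t))
              then w k else 0)) :
    ∃ u : Fin n → F, u ≠ 0 ∧ (Finset.univ.filter fun i => u i ≠ 0).card ≤ q ∧
      ∀ c ∈ C, ∑ i, u i * c i = 0 := by
  by_contra hcon
  have hno : ∀ u : Fin n → F, (Finset.univ.filter fun i => u i ≠ 0).card ≤ q →
      (∀ c ∈ C, ∑ i, u i * c i = 0) → u = 0 := by
    intro u h1 h2
    by_contra h3
    exact hcon ⟨u, h3, h1, h2⟩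
  obtain ⟨m, Q, w, -, -, htest⟩ := htest
  obtain ⟨r, hr⟩ := exists_far C ε hC hεn hdist
  have h1 := htest r hr
  rw [Finset.sum_eq_zero] at h1
  · linarith
  · intro k _
    rw [if_neg]
    rintro ⟨L, -, hL⟩
    apply hL
    obtain ⟨c, hc, hcS⟩ := exists_agree C q hno ((Finset.range q).image L)
      (Finset.card_image_le.trans (by simp)) r
    exact ⟨c, hc, fun t ht => hcS _ (Finset.mem_image_of_mem _ (Finset.mem_range.mpr ht))⟩

end P61e83e
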