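import Mathlib
import Pool.Agent.Lib.P61e83e.Same
import Pool.Agent.Lib.P61e83e.Cross
import Pool.Agent.Lib.P61e83e.Tester

/-!
# Locally testable codes with a doubly transitive group of semi-affine automorphisms

Let `K` be a finite field with `n` elements, whose elements index the coordinates.  A code whose
automorphism group contains a doubly transitive group of permutations `x ↦ a σ(x) + b` of `K`
(`σ` a field automorphism) and which is a `(q, ε, s, 1)`-LTC of relative distance at least `3 ε`
has dimension at most `c (log n + 1) ^ (q - 1)`.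
-/

set_option autoImplicit false
open Classical

namespace Pool.Agent.Results.MP_61e83e_lc.SemiAffineGroups

open P61e83e

/-- A dual word of weight at most one forces the code to be zero. -/
lemma eq_bot_of_small {F K : Type*} [Field F] [Field K] [Fintype K] (C : Submodule F (K → F))
    (htr : ∀ b, Pres C (trans b)) (u : K → F) (hu : ∀ f ∈ C, ∑ x, u x * f x = 0) (hu0 : u ≠ 0)
    (h1 : (Finset.univ.filter fun x => u x ≠ 0).card ≤ 1) : C = ⊥ := by
  obtain ⟨y, hy⟩ : ∃ y, u y ≠ 0 := by
    by_contra h
    push Not at h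
    exact hu0 (funext h)
  have hy' : ∀ x, x ≠ y → u x = 0 := by
    intro x hx
    by_contra hne
    exact hx (Finset.card_le_one.mp h1 x (by simp [hne]) y (by simp [hy]))
  have h2 : ∀ f ∈ C, f y = 0 := by
    intro f hf
    have h3 := hu f hf
    rw [Finset.sum_eq_single y (fun x _ hx => by rw [hy' x hx, zero_mul])
      (fun h => absurd (Finset.mem_univ y) h)] at h3
    exact (mul_eq_zero.mp h3).resolve_left hy
  rw [eq_bot_iff]
  intro f hf
  rw [Submodule.mem_bot]
  funext x
  have h4 := h2 _ (htr (x - y) f hf)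
  simpa [trans_apply] using h4

/-- The bound for a code indexed by a field of the same characteristic. -/
lemma bound_same {F K : Type*} [Field F] [Field K] [Fintype K]
    (p : ℕ) [hp : Fact p.Prime] [CharP F p] [CharP K p] (m : ℕ) (hm : 0 < m)
    (hcardK : Fintype.card K = p ^ m) (C : Submodule F (K → F)) (h : TwoTrans C)
    (u : K → F) (hu : ∀ f ∈ C, ∑ x, u x * f x = 0) (hu0 : u ≠ 0) (q : ℕ)
    (hq : (Finset.univ.filter fun x => u x ≠ 0).card ≤ q) :
    Module.finrank F C ≤ p ^ 2 * m * (m * p) ^ (q - 2) := by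
  have hp1 := hp.out.one_lt
  set H := dilGroup C with hH
  have htr : ∀ b, Pres C (trans b) := h.trans_mem p m hcardK
  have hidx : H.index ≤ m := h.index_le p m hcardK
  have hidx0 : 0 < H.index := Nat.pos_of_ne_zero Subgroup.index_ne_zero_of_finite
  have hr : H.index * Fintype.card H + 1 = p ^ m := by
    have h1 := H.index_mul_card
    rw [Nat.card_eq_fintype_card, Nat.card_eq_fintype_card (α := Kˣ), Fintype.card_units, hcardK]
      at h1
    have h2 : 0 < p ^ m := pow_pos (by omega) _
    omega
  set w := Nat.clog p (p * H.index) with hw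
  have hw1 : p * H.index ≤ p ^ w := Nat.le_pow_clog hp1 _
  have hw2 : p ^ w ≤ p ^ 2 * H.index := by
    have h3 : 1 < p * H.index := by
      calc 1 < p := hp1
        _ = p * 1 := (mul_one p).symm
        _ ≤ p * H.index := Nat.mul_le_mul_left _ hidx0
    have h4 := Nat.pow_pred_clog_lt_self hp1 h3
    rw [← hw] at h4
    have h5 : 0 < w := Nat.clog_pos hp1 h3
    have h6 : p ^ w = p ^ w.pred * p := by
      rw [← pow_succ]
      congr 1
      exact (Nat.succ_pred_eq_of_pos h5).symm
    calc p ^ w = p ^ w.pred * p := h6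
      _ ≤ p * H.index * p := Nat.mul_le_mul_right _ h4.le
      _ = p ^ 2 * H.index := by ring
  have hmain := finrank_le_same p m hm hcardK H C (fun f hf b => htr b f hf)
    (fun f hf a ha => ha f hf) u hu hu0 q hq H.index w hr hw1
  calc Module.finrank F C ≤ p ^ w * (m * p) ^ (q - 2) := hmain
    _ ≤ p ^ 2 * m * (m * p) ^ (q - 2) :=
      Nat.mul_le_mul_right _ (hw2.trans (Nat.mul_le_mul_left _ hidx))

/-- **Main theorem.**  The hypothesis on `C` after the quantifiers says in turn: the permutations of
the coordinates that preserve `C` and are semi-affine for some identification of the coordinates with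
the elements of a field `K` are doubly transitive; the relative distance of `C` is at least `3 ε`;
`C` has a perfect-completeness `q`-query (possibly adaptive) randomised tester which rejects every
`ε`-far word with probability at least `s`. -/
theorem result (F : Type) [Field F] [Fintype F] (q : ℕ) (ε s : ℝ) (hε : 0 < ε) (hs : 0 < s) :
    ∃ c : ℝ, ∀ (n : ℕ) (C : Submodule F (Fin n → F)),
      (∃ (K : Type) (_ : Field K) (e : Fin n ≃ K),
        ∀ i j i' j' : Fin n, i ≠ j → i' ≠ j' → ∃ π : Equiv.Perm (Fin n),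
          (∃ (σ : K ≃+* K) (a b : K), ∀ k, e (π k) = a * σ (e k) + b) ∧
          (∀ w ∈ C, (fun k => w (π k)) ∈ C) ∧ π i = i' ∧ π j = j') →
      (∀ c ∈ C, c ≠ 0 →
          3 * ε * (n : ℝ) ≤ ((Finset.univ.filter (fun i => c i ≠ 0)).card : ℝ)) →
      (∃ (m : ℕ) (Q : Fin m → List F → Fin n) (w : Fin m → ℝ),
        (∀ k, 0 ≤ w k) ∧ (∑ k, w k) = 1 ∧
        ∀ r : Fin n → F,
          (∀ c ∈ C, ε * (n : ℝ) ≤ ((Finset.univ.filter (fun i => r i ≠ c i)).card : ℝ)) →
          s ≤ ∑ k, (if (∃ L : ℕ → Fin n,
                (∀ t, t < q → L t = Q k ((List.range t).map (fun i => r (L i)))) ∧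
                ¬ ∃ c ∈ C, ∀ t, t < q → c (L t) = r (L t))
              then w k else 0)) →
      (Module.finrank F C : ℝ) ≤ c * (Real.log n + 1) ^ (q - 1) := by
  obtain ⟨p, hpF⟩ := CharP.exists F
  have hpp : Fact p.Prime := ⟨CharP.char_is_prime F p⟩
  have hp1 := hpp.out.one_lt
  -- the constant
  let c₀ : ℝ := 1 + 1 / ε + (p : ℝ) ^ 2 * 2 * (2 * p) ^ (q - 2)
  have hc0 : 0 ≤ (p : ℝ) ^ 2 * 2 * (2 * p) ^ (q - 2) := by positivity
  have hc1 : 0 ≤ 1 / ε := by positivity
  refine ⟨c₀, fun n C hG hdist htest => ?_⟩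
  obtain ⟨K, _, e, hG⟩ := hG
  have _ : Fintype K := Fintype.ofEquiv _ e
  have hcardK : Fintype.card K = n := by
    rw [← Fintype.card_congr e, Fintype.card_fin]
  have hn2 : 2 ≤ n := by
    rw [← hcardK]; exact Fintype.one_lt_card
  have hlog : 0 ≤ Real.log n := Real.log_nonneg (by exact_mod_cast (by omega : 1 ≤ n))
  have hpow1 : (1 : ℝ) ≤ (Real.log n + 1) ^ (q - 1) := one_le_pow₀ (by linarith)
  -- small dimension is harmless
  have hsmall : ∀ x : ℝ, x ≤ 1 + 1 / ε → x ≤ c₀ * (Real.log n + 1) ^ (q - 1) := by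
    intro x hx
    calc x ≤ c₀ := by simp only [c₀]; linarith
      _ = c₀ * 1 := (mul_one _).symm
      _ ≤ c₀ * (Real.log n + 1) ^ (q - 1) :=
        mul_le_mul_of_nonneg_left hpow1 (by simp only [c₀]; linarith)
  have hdimn : (Module.finrank F C : ℝ) ≤ n := by
    have := Submodule.finrank_le C
    rw [Module.finrank_fin_fun] at this
    exact_mod_cast this
  by_cases hC0 : C = ⊥
  · refine hsmall _ ?_
    rw [hC0, finrank_bot]
    push_cast
    linarith
  by_cases hεn : ε * n < 1
  · refine hsmall _ (hdimn.trans ?_)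
    have : (n : ℝ) < 1 / ε := by rw [lt_div_iff₀ hε]; linarith
    linarith
  push Not at hεn
  obtain ⟨u, hu0, huq, hu⟩ := exists_dual C q ε s hs hC0 hεn hdist htest
  -- transport to functions on `K`
  let T : (K → F) ≃ₗ[F] (Fin n → F) := LinearEquiv.funCongrLeft F F e
  have hT : ∀ (f : K → F) (i : Fin n), T f i = f (e i) := fun f i => rfl
  let C' : Submodule F (K → F) := C.comap (T : (K → F) →ₗ[F] (Fin n → F))
  have hmem : ∀ f : K → F, f ∈ C' ↔ (fun i => f (e i)) ∈ C := fun f => Iff.rfl
  have hfin : Module.finrank F C' = Module.finrank F C :=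
    LinearEquiv.finrank_eq (LinearEquiv.ofSubmodule' T C)
  have hTT : TwoTrans C' := by
    intro x y x' y' hxy hxy'
    obtain ⟨π, ⟨σ, a, b, hπ⟩, hπC, h1, h2⟩ := hG (e.symm x) (e.symm y) (e.symm x') (e.symm y')
      (fun h => hxy (e.symm.injective h)) (fun h => hxy' (e.symm.injective h))
    refine ⟨(e.symm.trans π).trans e, ⟨σ, a, b, fun z => ?_⟩, fun f hf => ?_, ?_, ?_⟩
    · have := hπ (e.symm z)
      simpa using this
    · rw [hmem] at hf ⊢
      have := hπC _ hf
      simpa using this
    · simp [h1]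
    · simp [h2]
  let u' : K → F := fun x => u (e.symm x)
  have hu'0 : u' ≠ 0 := by
    intro h
    apply hu0
    funext i
    have := congrFun h (e i)
    simpa [u'] using this
  have hu' : ∀ f ∈ C', ∑ x, u' x * f x = 0 := by
    intro f hf
    rw [← Equiv.sum_comp e]
    have := hu _ ((hmem f).mp hf)
    simpa [u'] using this
  have hu'q : (Finset.univ.filter fun x => u' x ≠ 0).card ≤ q := by
    have h1 : (Finset.univ.filter fun x => u' x ≠ 0) =
        (Finset.univ.filter fun i => u i ≠ 0).map e.toEmbedding := by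
      ext x
      simp only [Finset.mem_filter, Finset.mem_univ, true_and, Finset.mem_map_equiv, u']
    rw [h1, Finset.card_map]
    exact huq
  obtain ⟨p', hp'K⟩ := CharP.exists K
  have hpp' : Fact p'.Prime := ⟨CharP.char_is_prime K p'⟩
  obtain ⟨m, -, hm⟩ := FiniteField.card K p'
  have htr : ∀ b, Pres C' (trans b) := hTT.trans_mem p' m hm
  by_cases hpp'eq : p = p'
  · subst hpp'eq
    have hb := bound_same p m m.pos hm C' hTT u' hu' hu'0 q hu'q
    rw [hfin] at hb
    have hq2 : 2 ≤ q := by
      by_contra hcon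
      have h1 := eq_bot_of_small C' htr u' hu' hu'0 (hu'q.trans (by omega))
      apply hC0
      rw [eq_bot_iff]
      intro w hw
      have h2 : (fun x => w (e.symm x)) ∈ C' := by
        rw [hmem]
        simpa using hw
      rw [h1, Submodule.mem_bot] at h2
      rw [Submodule.mem_bot]
      funext i
      have := congrFun h2 (e i)
      simpa using this
    have hmlog : (m : ℝ) ≤ 2 * Real.log n := by
      have h1 : Real.log n = m * Real.log p := by
        rw [← hcardK, hm]
        push_cast
        rw [Real.log_pow]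
      have h2 : (1 : ℝ) / 2 ≤ Real.log p := by
        have h3 : Real.log 2 ≤ Real.log p :=
          Real.log_le_log (by norm_num) (by exact_mod_cast hpp.out.two_le)
        have := Real.log_two_gt_d9
        linarith
      rw [h1]
      have h4 : (0 : ℝ) ≤ m := Nat.cast_nonneg _
      nlinarith
    obtain ⟨k, rfl⟩ : ∃ k, q = k + 2 := ⟨q - 2, by omega⟩
    have e1 : k + 2 - 2 = k := by omega
    have e2 : k + 2 - 1 = k + 1 := by omega
    have hc2 : c₀ = 1 + 1 / ε + (p : ℝ) ^ 2 * 2 * (2 * p) ^ k := by simp only [c₀, e1]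
    rw [e1] at hb
    rw [e2]
    have hb' : (Module.finrank F C : ℝ) ≤ (p : ℝ) ^ 2 * m * (m * p) ^ k := by exact_mod_cast hb
    have hp0 : (0 : ℝ) ≤ p := Nat.cast_nonneg _
    have hm0 : (0 : ℝ) ≤ m := Nat.cast_nonneg _
    have hlog1 : Real.log n ≤ Real.log n + 1 := by linarith
    calc (Module.finrank F C : ℝ) ≤ (p : ℝ) ^ 2 * m * (m * p) ^ k := hb'
      _ ≤ (p : ℝ) ^ 2 * (2 * (Real.log n + 1)) * ((2 * (Real.log n + 1)) * p) ^ k := by
          gcongr <;> linarith
      _ = ((p : ℝ) ^ 2 * 2 * (2 * p) ^ k) * (Real.log n + 1) ^ (k + 1) := by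
          rw [show 2 * (Real.log n + 1) * (p : ℝ) = 2 * p * (Real.log n + 1) by ring, mul_pow]
          ring
      _ ≤ c₀ * (Real.log n + 1) ^ (k + 1) := by
          refine mul_le_mul_of_nonneg_right ?_ (by positivity)
          rw [hc2]; linarith
  · have hcard : ((Fintype.card K : ℕ) : F) ≠ 0 := by
      intro h0
      rw [CharP.cast_eq_zero_iff F p, hm] at h0
      exact hpp'eq ((Nat.prime_dvd_prime_iff_eq hpp.out hpp'.out).mp
        (hpp.out.dvd_of_dvd_pow h0))
    rcases cross_dichotomy hcard C' hTT htr with ⟨w, hwC, hw0, hw2⟩ | h1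
    · have h2 := hdist (fun i => w (e i)) ((hmem w).mp hwC) (by
        intro h
        apply hw0
        funext x
        have := congrFun h (e.symm x)
        simpa using this)
      have h3 : (Finset.univ.filter (fun i => w (e i) ≠ 0)).card ≤ 2 := by
        have h4 : (Finset.univ.filter fun x => w x ≠ 0) =
            (Finset.univ.filter fun i => w (e i) ≠ 0).map e.toEmbedding := by
          ext x
          simp only [Finset.mem_filter, Finset.mem_univ, true_and, Finset.mem_map_equiv,
            Equiv.apply_symm_apply]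
        rw [h4, Finset.card_map] at hw2
        exact hw2
      have h5 : 3 * ε * (n : ℝ) ≤ 2 := h2.trans (by exact_mod_cast h3)
      refine hsmall _ (hdimn.trans ?_)
      have h6 : (n : ℝ) ≤ 1 / ε := by
        rw [le_div_iff₀ hε]
        linarith
      linarith
    · refine hsmall _ ?_
      rw [hfin] at h1
      have : (Module.finrank F C : ℝ) ≤ 1 := by exact_mod_cast h1
      linarith

end Pool.Agent.Results.MP_61e83e_lc.SemiAffineGroups
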